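import Pool.Agent.TH310.JS.Spec

/-!
# Bounded transfer matrices along subsequences do not give absolutely continuous spectrum

There is a constant `C` such that for every `A` there is a discrete Schroedinger operator on the half
line (a Jacobi matrix with `a_n = 1` and a bounded real sequence `b`) whose spectral measure is purely
singular, so that `Σ_ac(J)` is empty, while `liminf ‖T_E(n)‖ ≤ C` for almost every energy
`E ∈ [-A, A]`. So `{E : liminf ‖T_E(n)‖ < ∞}` and `Σ_ac(J)` differ by a set of measure at least `2 A`,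
and the answer to Q1 is negative.

The universal words of `Pool.Agent.H508R3.SC` (which bring every transfer matrix of a given size back to
size `C` for most energies of a fixed interval) are used at shifted energies, and in between two barriers
of height about `10` and `-10` make the solution with `u_0 = 0` large for almost all energies of the
real line.
-/

set_option autoImplicit false

open MeasureTheory Filter Set Topology

namespace Pool.Agent.Results.MP_8faa00_mp.PurelySingular

/-- The Jacobi operator: `(J u)_n = a_n u_{n+1} + b_n u_n + a_{n-1} u_{n-1}` for `n ≥ 1`, acting on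
sequences `(u_n)_{n ≥ 0}` with `u_0 = 0` (the values `a 0`, `b 0` are not used). -/
def jacobi (a b : ℕ → ℝ) (u : ℕ → ℝ) : ℕ → ℝ := fun n =>
  if n = 0 then 0 else a n * u (n + 1) + b n * u n + a (n - 1) * u (n - 1)

/-- The sequence `δ_1`. -/
def delta1 : ℕ → ℝ := fun n => if n = 1 then 1 else 0

/-- `μ` is the spectral measure of the Jacobi matrix for the vector `δ_1`: it is a finite measure with
bounded support and its moments are `⟨δ_1, J^k δ_1⟩`. -/
def IsSpectralMeasure (a b : ℕ → ℝ) (μ : Measure ℝ) : Prop :=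
  IsFiniteMeasure μ ∧ (∃ R : ℝ, μ {x | R < |x|} = 0) ∧
    ∀ k : ℕ, ∫ x, x ^ k ∂μ = ((jacobi a b)^[k] delta1) 1

/-- The Borel set `S` is an essential support of the absolutely continuous part of `μ`: the absolutely
continuous part of `μ` and Lebesgue measure on `S` are mutually absolutely continuous. -/
def IsAcSupport (μ : Measure ℝ) (S : Set ℝ) : Prop :=
  MeasurableSet S ∧ volume.withDensity (μ.rnDeriv volume) ≪ volume.restrict S ∧
    volume.restrict S ≪ volume.withDensity (μ.rnDeriv volume)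

/-- The matrix `A_k(E)`, `k ≥ 1`, with the convention `a_0 = 1`. -/
noncomputable def stepMatrix (a b : ℕ → ℝ) (E : ℝ) (k : ℕ) : Matrix (Fin 2) (Fin 2) ℝ :=
  (a k)⁻¹ • !![E - b k, -(if k = 1 then 1 else a (k - 1)); a k, 0]

/-- The transfer matrix `T_E(n) = A_n(E) ⋯ A_1(E)`. -/
noncomputable def transfer (a b : ℕ → ℝ) (E : ℝ) : ℕ → Matrix (Fin 2) (Fin 2) ℝ
  | 0 => 1
  | n + 1 => stepMatrix a b E (n + 1) * transfer a b E n

/-- The set of energies with `liminf ‖T_E(n)‖ < ∞`. -/
def liminfSet (a b : ℕ → ℝ) : Set ℝ :=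
  {E | ∃ C : ℝ, ∃ᶠ n in atTop, ∀ i j : Fin 2, |(transfer a b E n) i j| ≤ C}

lemma transfer_eq (b : ℕ → ℝ) (E : ℝ) (n : ℕ) :
    transfer (fun _ => 1) b E n = Pool.Agent.TH310.JS.transfer (fun _ => 1) b E n := by
  induction n with
  | zero => rfl
  | succ n ih =>
    rw [transfer, ih]
    rfl

/-- Negative answer to Q1, in a strong form. -/
theorem result :
    -- the equality of Q1 fails
    (¬ ∀ (a b : ℕ → ℝ), (∀ n, 1 ≤ n → 0 < a n) → (∃ B : ℝ, ∀ n, |a n| ≤ B ∧ |b n| ≤ B) →
      ∀ (μ : Measure ℝ) (S : Set ℝ), IsSpectralMeasure a b μ → IsAcSupport μ S →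
        volume (symmDiff (liminfSet a b) S) = 0) ∧
    -- the counterexamples
    ∃ C : ℝ, ∀ A : ℝ, ∃ (b : ℕ → ℝ) (μ : Measure ℝ), (∃ B : ℝ, ∀ n, |b n| ≤ B) ∧
      IsSpectralMeasure (fun _ => 1) b μ ∧
      (∀ ν, IsSpectralMeasure (fun _ => 1) b ν → ν = μ) ∧
      μ ⟂ₘ volume ∧
      (∀ S, IsAcSupport μ S → volume S = 0) ∧
      ∀ᵐ E ∂(volume.restrict (Icc (-A) A)), ∃ᶠ n in atTop, ∀ i j : Fin 2,
        |(transfer (fun _ => 1) b E n) i j| ≤ C := by
  obtain ⟨C, hC⟩ := Pool.Agent.TH310.JS.main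
  have key : ∀ A : ℝ, ∃ (b : ℕ → ℝ) (μ : Measure ℝ), (∃ B : ℝ, ∀ n, |b n| ≤ B) ∧
      IsSpectralMeasure (fun _ => 1) b μ ∧
      (∀ ν, IsSpectralMeasure (fun _ => 1) b ν → ν = μ) ∧
      μ ⟂ₘ volume ∧
      (∀ S, IsAcSupport μ S → volume S = 0) ∧
      ∀ᵐ E ∂(volume.restrict (Icc (-A) A)), ∃ᶠ n in atTop, ∀ i j : Fin 2,
        |(transfer (fun _ => 1) b E n) i j| ≤ C := by
    intro A
    obtain ⟨b, μ, hb, h1, h2, h3⟩ := hC A
    have h1' : IsSpectralMeasure (fun _ => 1) b μ := h1
    refine ⟨b, μ, hb, h1', ?_, h2, ?_, ?_⟩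
    · intro ν hν
      obtain ⟨f1, ⟨R1, r1⟩, m1⟩ := hν
      obtain ⟨f2, ⟨R2, r2⟩, m2⟩ := h1'
      refine Pool.Agent.TH310.JS.ext_moments ν μ (max R1 R2) ?_ ?_ fun k => ?_
      · refine measure_mono_null ?_ r1
        intro x hx
        exact lt_of_le_of_lt (le_max_left R1 R2) hx
      · refine measure_mono_null ?_ r2
        intro x hx
        exact lt_of_le_of_lt (le_max_right R1 R2) hx
      · rw [m1, m2]
    · intro S hS
      have f2 := h1'.1
      have h4 : μ.rnDeriv volume =ᵐ[volume] 0 := (Measure.rnDeriv_eq_zero μ volume).2 h2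
      have h5 : volume.withDensity (μ.rnDeriv volume) = 0 := by
        rw [withDensity_congr_ae h4, withDensity_zero]
      have h6 := hS.2.2
      rw [h5] at h6
      have h7 := Measure.absolutelyContinuous_zero_iff.1 h6
      rwa [Measure.restrict_eq_zero] at h7
    · filter_upwards [h3] with E hE
      refine hE.mono fun n hn i j => ?_
      rw [transfer_eq]
      exact hn i j
  refine ⟨fun hQ => ?_, C, key⟩
  obtain ⟨b, μ, ⟨B, hB⟩, h1, -, h2, h3, h4⟩ := key 1
  have f1 := h1.1
  have hac : IsAcSupport μ ∅ := by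
    have h4 : μ.rnDeriv volume =ᵐ[volume] 0 := (Measure.rnDeriv_eq_zero μ volume).2 h2
    have h5 : volume.withDensity (μ.rnDeriv volume) = 0 := by
      rw [withDensity_congr_ae h4, withDensity_zero]
    refine ⟨MeasurableSet.empty, ?_, ?_⟩ <;> rw [h5, Measure.restrict_empty]
  have h5 := hQ (fun _ => 1) b (fun _ _ => one_pos)
    ⟨max 1 B, fun n => ⟨by rw [abs_one]; exact le_max_left _ _, (hB n).trans (le_max_right _ _)⟩⟩
    μ ∅ h1 hac
  have h6 : volume (Icc (-1 : ℝ) 1) ≤ volume (liminfSet (fun _ => 1) b) := by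
    rw [ae_restrict_iff' measurableSet_Icc] at h4
    refine measure_mono_ae ?_
    filter_upwards [h4] with E hE hmem
    exact ⟨C, hE hmem⟩
  have h7 : symmDiff (liminfSet (fun _ => 1) b) ∅ = liminfSet (fun _ => 1) b := by
    rw [← Set.bot_eq_empty, symmDiff_bot]
  rw [h7] at h5
  rw [h5, Real.volume_Icc] at h6
  norm_num at h6

end Pool.Agent.Results.MP_8faa00_mp.PurelySingular
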